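import Pool.Agent.H25.Bet.Rad

/-!
# Directions from nearby points

JOB PE-3 (`dir_near`). `p ≠ E` as `dist p E ≥ dist p r ≥ T ≥ 1`; `eq_pt_of_dist_add` gives `r = pt p E s`
with `s ∈ [0,1]`. Let `q' = pt y E s`. `dist q' r ≤ (1-s) dist y p ≤ D` (`dist_pt_pt_le y E p E`), so
`dist q' z ≤ 2D`, `dist y q' ≥ dist p r - dist y p - dist q' r ≥ 8DT + T`, `dist y z ≥ dist y q' - 2D ≥ T`
(`8DT ≥ 2D`), `dist y E ≥ dist y q'` (`dist_left_pt`). `rad y T q' = rad y T E` (`rad_pt`), and
`rad_near`: `dist (rad y T q') (rad y T z) * dist y q' ≤ 2T * dist q' z ≤ 4DT`, hence `≤ 1/2`.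
`dist_rad_rad`: `dist_pt_pt` and `div_mul_dist`. `rad_between`: `dist_rad_rad`, `dist_rad_right`.
-/

open Set

namespace Pool.Agent.H25.PE

open Pool.Agent.H29 Pool.Agent.H25.Bet

variable {X : Type*} [MetricSpace X] [IsCAT0 X]

theorem dir_near {y p E r z : X} {D T : ℝ} (hD : 0 ≤ D) (hT : 1 ≤ T)
    (hr : dist p r + dist r E = dist p E) (h1 : dist y p ≤ D) (h2 : dist r z ≤ D)
    (h3 : 8 * D * T + 2 * D + T ≤ dist p r) :
    T ≤ dist y z ∧ T ≤ dist y E ∧ dist (rad y T z) (rad y T E) ≤ 1 / 2 := by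
  have hDT : 0 ≤ D * T := mul_nonneg hD (by linarith)
  have hDT' : D ≤ D * T := le_mul_of_one_le_right hD hT
  have hpr : T ≤ dist p r := by nlinarith
  have hpE : 0 < dist p E := by
    have := dist_nonneg (x := r) (y := E)
    linarith
  have hne : p ≠ E := dist_pos.mp hpE
  have hrp := eq_pt_of_dist_add hr hne
  have hs : dist p r / dist p E ∈ Icc (0 : ℝ) 1 := by
    constructor
    · positivity
    · rw [div_le_one hpE]
      have := dist_nonneg (x := r) (y := E)
      linarith
  set s := dist p r / dist p E with hsdef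
  have hq1 : dist (pt y E s) r ≤ D := by
    have h4 := dist_pt_pt_le y E p E hs
    rw [dist_self, mul_zero, add_zero, ← hrp] at h4
    have h5 : (1 - s) * dist y p ≤ 1 * dist y p :=
      mul_le_mul_of_nonneg_right (by linarith [hs.1]) dist_nonneg
    linarith
  have hq2 : dist (pt y E s) z ≤ 2 * D := by
    have := dist_triangle (pt y E s) r z
    linarith
  have hq3 : 8 * D * T + T ≤ dist y (pt y E s) := by
    have h4 := dist_triangle p y r
    have h5 := dist_triangle y (pt y E s) r
    rw [dist_comm p y] at h4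
    linarith
  have hyz : T ≤ dist y z := by
    have h4 := dist_triangle y z (pt y E s)
    rw [dist_comm z (pt y E s)] at h4
    nlinarith
  have hyq : T ≤ dist y (pt y E s) := by nlinarith
  have hyE : T ≤ dist y E := by
    have h4 := dist_left_pt y E hs
    have h5 : s * dist y E ≤ 1 * dist y E := mul_le_mul_of_nonneg_right hs.2 dist_nonneg
    linarith
  refine ⟨hyz, hyE, ?_⟩
  have h6 := rad_near (by linarith) hyq hyz
  have h7 : rad y T (pt y E s) = rad y T E := rad_pt hs (by linarith) hyq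
  rw [h7] at h6
  rw [dist_comm]
  by_contra hc
  push Not at hc
  have h8 : 2 * T * dist (pt y E s) z ≤ 2 * T * (2 * D) :=
    mul_le_mul_of_nonneg_left hq2 (by linarith)
  have h9 : 1 / 2 * (8 * D * T + T) ≤
      dist (rad y T E) (rad y T z) * dist y (pt y E s) :=
    mul_le_mul hc.le hq3 (by nlinarith) dist_nonneg
  nlinarith

lemma dist_rad_rad {x u : X} {s t : ℝ} (hs : 0 ≤ s) (hst : s ≤ t) (ht : t ≤ dist x u) :
    dist (rad x s u) (rad x t u) = t - s := by
  have h1 := div_mul_dist hs (hst.trans ht)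
  have h2 := div_mul_dist (hs.trans hst) ht
  rw [rad, rad, dist_pt_pt x u (rad_mem hs (hst.trans ht)) (rad_mem (hs.trans hst) ht)]
  have h3 : |s / dist x u - t / dist x u| * dist x u =
      |(s / dist x u - t / dist x u) * dist x u| := by
    rw [abs_mul, abs_of_nonneg (dist_nonneg (x := x) (y := u))]
  rw [h3, sub_mul, h1, h2, abs_sub_comm, abs_of_nonneg (by linarith)]

lemma rad_between_right {x u : X} {s t : ℝ} (hs : 0 ≤ s) (hst : s ≤ t) (ht : t ≤ dist x u) :
    dist (rad x s u) (rad x t u) + dist (rad x t u) u = dist (rad x s u) u := by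
  rw [dist_rad_rad hs hst ht, dist_rad_right (hs.trans hst) ht, dist_rad_right hs (hst.trans ht)]
  ring

lemma rad_between_left {x u : X} {s t : ℝ} (hs : 0 ≤ s) (hst : s ≤ t) (ht : t ≤ dist x u) :
    dist (rad x t u) (rad x s u) + dist (rad x s u) x = dist (rad x t u) x := by
  rw [dist_comm (rad x t u) (rad x s u), dist_rad_rad hs hst ht, dist_comm _ x, dist_comm _ x,
    dist_rad (hs.trans hst) ht, dist_rad hs (hst.trans ht)]
  ring

end Pool.Agent.H25.PE
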