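import Pool.Agent.H25.PE.Pigeon
import Pool.Agent.H25.Lp.Grow

/-!
# A segment has few gates

JOB PE-5. `same_class`: `u' = rad x T' u`, `v' = rad x T' v` with `T' = (4D+1)T ≥ T`
satisfy `dist x u' = T'` (`dist_rad`), `rad x T u' = rad x T u` (`rad_rad`), and `rad_scale` (Lp/Curve2.lean,
`t = T`, `r = T'`) gives `dist (rad x T u) (rad x T v) ≤ T/T' * 2D = 2D/(4D+1) ≤ 1/2`.
`few_gates`: put `g i = q (rad x i (k•x))`. For `i ∈ A`: `dist x (g i•x) ≥ i - D ≥ (4D+1)T` (`dist_rad`),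
`dist x ((g i)⁻¹•x) = dist x (g i•x)` (`dist_inv_smul`), so
`cl i = q (rad x T' ((g i)⁻¹•x))` lies in `near G x x (T' + D)`. The map `i ↦ (i % L, cl i)` from `A` to
`range L ×ˢ near G x x (T'+D)` is injective: if `i < j` in `A` have the same image then `L ∣ j - i`, so
`L ≤ j - i`, and the radial points at radius `T'` are both within `D` of `cl i • x`, so within `2D` of each
other; `same_class` and `not_gate_pair` give `¬ Gate2` at `i`. (`L ≥ 1` as `L ≥ T ≥ 1`.)
-/

open Set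

namespace Pool.Agent.H25.PE

open Pool.Agent.H29 Pool.Agent.H25.Bet Pool.Agent.H25.Lp

lemma same_class {X : Type*} [MetricSpace X] [IsCAT0 X] {x u v : X} {D T : ℝ} (hD : 0 ≤ D)
    (hT : 1 ≤ T) (hu : (4 * D + 1) * T ≤ dist x u) (hv : (4 * D + 1) * T ≤ dist x v)
    (h : dist (rad x ((4 * D + 1) * T) u) (rad x ((4 * D + 1) * T) v) ≤ 2 * D) :
    dist (rad x T u) (rad x T v) ≤ 1 / 2 := by
  have hT0 : 0 < T := by linarith
  have hTT : T ≤ (4 * D + 1) * T := by nlinarith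
  have hT' : 0 < (4 * D + 1) * T := by nlinarith
  rw [← rad_rad hT0.le hTT hu, ← rad_rad hT0.le hTT hv]
  have h1 := dist_rad hT'.le hu
  have h2 := dist_rad hT'.le hv
  have h3 := rad_scale (x := x) (u := rad x ((4 * D + 1) * T) u)
    (v := rad x ((4 * D + 1) * T) v) hT0 hTT h1.ge h2.ge
  have hD1 : 0 < 4 * D + 1 := by linarith
  have h4 : T / ((4 * D + 1) * T) = 1 / (4 * D + 1) := by field_simp
  rw [h4] at h3
  refine h3.trans ?_
  have h5 : 1 / (4 * D + 1) * dist (rad x ((4 * D + 1) * T) u) (rad x ((4 * D + 1) * T) v) ≤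
      1 / (4 * D + 1) * (2 * D) := mul_le_mul_of_nonneg_left h (by positivity)
  refine h5.trans ?_
  rw [div_mul_eq_mul_div, div_le_div_iff₀ hD1 (by norm_num)]
  linarith

variable {G X : Type*} [Group G] [MetricSpace X] [IsCAT0 X] [ProperSpace X] [MulAction G X]
  [IsIsometricSMul G X] [ProperlyDiscontinuousSMul G X]

theorem few_gates (hcoc : Cocompact G X) (hno : ¬ ∃ g : G, IsRankOne (X := X) g)
    {x : X} {q : X → G} {D : ℝ} (hD : 0 ≤ D) (hq : ∀ z, dist z (q z • x) ≤ D)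
    {T : ℝ} (hT : 1 ≤ T) {L : ℕ} (hL1 : 8 * D * T + 2 * D + T ≤ L)
    (hL2 : 4 * T ^ 2 + 2 * T + 1 + 2 * D ≤ L) {k : G} {A : Finset ℕ}
    (hA : ∀ i ∈ A, (4 * D + 1) * T + D ≤ (i : ℝ) ∧ (i : ℝ) ≤ dist x (k • x) ∧
      Gate2 T x ((q (rad x i (k • x)))⁻¹ • x) ((q (rad x i (k • x)))⁻¹ • k • x)) :
    A.card ≤ L * (near G x x ((4 * D + 1) * T + D)).card := by
  classical
  have hT0 : 0 ≤ T := by linarith
  have hTT : T ≤ (4 * D + 1) * T := by nlinarith
  have hT'0 : 0 ≤ (4 * D + 1) * T := by positivity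
  have hLpos : 0 < L := by
    have h1 : (0 : ℝ) < L := by nlinarith [mul_nonneg hD hT0]
    exact_mod_cast h1
  have hgi : ∀ i ∈ A, (4 * D + 1) * T ≤ dist x ((q (rad x i (k • x)))⁻¹ • x) := by
    intro i hi
    obtain ⟨h1, h2, -⟩ := hA i hi
    have h3 := dist_rad (x := x) (u := k • x) (t := i) (Nat.cast_nonneg _) h2
    have h4 := hq (rad x i (k • x))
    have h5 := dist_triangle x (q (rad x i (k • x)) • x) (rad x i (k • x))
    rw [dist_comm (q (rad x i (k • x)) • x)] at h5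
    rw [dist_inv_smul]
    linarith
  have hmap : ∀ i ∈ A, (i % L, q (rad x ((4 * D + 1) * T) ((q (rad x i (k • x)))⁻¹ • x))) ∈
      Finset.range L ×ˢ near G x x ((4 * D + 1) * T + D) := by
    intro i hi
    rw [Finset.mem_product]
    refine ⟨Finset.mem_range.2 (Nat.mod_lt _ hLpos), mem_near.2 ?_⟩
    have h1 := dist_rad hT'0 (hgi i hi)
    have h2 := hq (rad x ((4 * D + 1) * T) ((q (rad x i (k • x)))⁻¹ • x))
    have h3 := dist_triangle x (rad x ((4 * D + 1) * T) ((q (rad x i (k • x)))⁻¹ • x))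
      (q (rad x ((4 * D + 1) * T) ((q (rad x i (k • x)))⁻¹ • x)) • x)
    show dist x (_ • x) ≤ _
    linarith
  have key : ∀ i ∈ A, ∀ j ∈ A, i < j →
      (i % L, q (rad x ((4 * D + 1) * T) ((q (rad x i (k • x)))⁻¹ • x))) =
      (j % L, q (rad x ((4 * D + 1) * T) ((q (rad x j (k • x)))⁻¹ • x))) → False := by
    intro i hi j hj hij he
    obtain ⟨he1, he2⟩ := Prod.mk.inj he
    have hdvd : L ∣ j - i := (Nat.modEq_iff_dvd' hij.le).1 he1
    have hle : L ≤ j - i := Nat.le_of_dvd (by omega) hdvd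
    have hle' : (L : ℝ) ≤ (j : ℝ) - i := by
      have h1 : L + i ≤ j := by omega
      have h2 : (L : ℝ) + i ≤ j := by exact_mod_cast h1
      linarith
    obtain ⟨a1, a2, a3⟩ := hA i hi
    obtain ⟨b1, b2, -⟩ := hA j hj
    have h1 := hq (rad x ((4 * D + 1) * T) ((q (rad x i (k • x)))⁻¹ • x))
    have h2 := hq (rad x ((4 * D + 1) * T) ((q (rad x j (k • x)))⁻¹ • x))
    rw [he2] at h1
    have h3 := dist_triangle_right (rad x ((4 * D + 1) * T) ((q (rad x i (k • x)))⁻¹ • x))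
      (rad x ((4 * D + 1) * T) ((q (rad x j (k • x)))⁻¹ • x))
      (q (rad x ((4 * D + 1) * T) ((q (rad x j (k • x)))⁻¹ • x)) • x)
    have h4 := same_class hD hT (hgi i hi) (hgi j hj) (by linarith)
    exact not_gate_pair hcoc hno hT hD (Nat.cast_nonneg i) b2 (by linarith) (by linarith)
      (hq _) (hq _) h4 a3
  have hinj : Set.InjOn (fun i : ℕ =>
      (i % L, q (rad x ((4 * D + 1) * T) ((q (rad x i (k • x)))⁻¹ • x)))) A := by
    intro i hi j hj he
    rcases lt_trichotomy i j with h | h | h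
    · exact (key i hi j hj h he).elim
    · exact h
    · exact (key j hj i hi h he.symm).elim
  have h1 := Finset.card_le_card_of_injOn _ hmap hinj
  rwa [Finset.card_product, Finset.card_range] at h1

end Pool.Agent.H25.PE
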