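import Mathlib

/-!
# The final estimate (elementary analysis)

JOB PE-8. `few_small`: `L = ⌈8DT+2D+T + (4T^2+2T+1+2D)⌉₊ ≤ 8DT+4D+3T+4T^2+2`; polynomials in `T ≥ 1` are
bounded by a constant times `exp T` and `N((4D+1)T+D) ≤ A exp (κ((4D+1)T+D))`.
`abstract_final`: let `B, μ` be as in the hypothesis; `T = log n/(2μ)`, so `B exp(μT) = B √n ≤ n/4` for
large `n`, `T ≥ 1` for large `n`; `J = ⌊√T/W⌋₊ ≥ √T/W - 1 ≥ √T/(2W)` for large `n`. If `N(n/2) ≤ N(n)/2`
the hypothesis gives `J n N(n)/8 ≤ C Σ`. Otherwise `Σ ≥ ∑_{i ≤ n/2} N(i) N(n-i) ≥ N(n/2) ∑_{i ≤ n/2} c(i+1)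
≥ (N(n)/2) c (n/2)^2/2`, and `√(log n) ≤ n`.
-/

open Real Finset

namespace Pool.Agent.H25.PE

theorem few_small {D A κ : ℝ} (hD : 0 ≤ D) (hA : 1 ≤ A) (hκ : 0 < κ) {N : ℝ → ℝ}
    (hN : ∀ r : ℝ, 0 ≤ r → N r ≤ A * exp (κ * r)) : ∃ B μ : ℝ, 0 < B ∧ 0 < μ ∧ ∀ T : ℝ, 1 ≤ T →
      2 * ((4 * D + 1) * T + D) + 3 +
        (⌈(8 * D * T + 2 * D + T) + (4 * T ^ 2 + 2 * T + 1 + 2 * D)⌉₊ : ℝ) *
          N ((4 * D + 1) * T + D) ≤ B * exp (μ * T) := by
  have hA0 : 0 < A := by linarith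
  refine ⟨2 * (10 * D + 5) + 2 * (12 * D + 9) * (A * exp (κ * D)), 1 + κ * (4 * D + 1),
    by positivity, by positivity, ?_⟩
  intro T hT
  have hT0 : 0 ≤ T := by linarith
  have hT2 : T ^ 2 ≤ 2 * exp T := by
    have := Real.quadratic_le_exp_of_nonneg hT0
    linarith
  have hTT : T ≤ T ^ 2 := by nlinarith
  have h1T : 1 ≤ T ^ 2 := by nlinarith
  have hDT : D ≤ D * T ^ 2 := by nlinarith
  have hDT' : D * T ≤ D * T ^ 2 := by nlinarith
  have h1 : 2 * ((4 * D + 1) * T + D) + 3 ≤ (10 * D + 5) * T ^ 2 := by nlinarith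
  have h2 : (⌈(8 * D * T + 2 * D + T) + (4 * T ^ 2 + 2 * T + 1 + 2 * D)⌉₊ : ℝ) ≤
      (12 * D + 9) * T ^ 2 := by
    have h := (Nat.ceil_lt_add_one (show 0 ≤ (8 * D * T + 2 * D + T) +
      (4 * T ^ 2 + 2 * T + 1 + 2 * D) by positivity)).le
    nlinarith
  have h3 : N ((4 * D + 1) * T + D) ≤ A * exp (κ * D) * exp (κ * (4 * D + 1) * T) := by
    have h := hN ((4 * D + 1) * T + D) (by positivity)
    have e : exp (κ * ((4 * D + 1) * T + D)) = exp (κ * D) * exp (κ * (4 * D + 1) * T) := by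
      rw [← Real.exp_add]
      congr 1
      ring
    rw [e] at h
    linarith
  have h4 : (⌈(8 * D * T + 2 * D + T) + (4 * T ^ 2 + 2 * T + 1 + 2 * D)⌉₊ : ℝ) *
      N ((4 * D + 1) * T + D) ≤ ((12 * D + 9) * (2 * exp T)) *
        (A * exp (κ * D) * exp (κ * (4 * D + 1) * T)) := by
    calc _ ≤ (⌈(8 * D * T + 2 * D + T) + (4 * T ^ 2 + 2 * T + 1 + 2 * D)⌉₊ : ℝ) *
          (A * exp (κ * D) * exp (κ * (4 * D + 1) * T)) := by gcongr
      _ ≤ _ := by
        have h5 : (⌈(8 * D * T + 2 * D + T) + (4 * T ^ 2 + 2 * T + 1 + 2 * D)⌉₊ : ℝ) ≤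
            (12 * D + 9) * (2 * exp T) := h2.trans (by gcongr)
        gcongr
  have h5 : exp T ≤ exp ((1 + κ * (4 * D + 1)) * T) := by
    apply Real.exp_le_exp.mpr
    have : 0 ≤ κ * (4 * D + 1) * T := by positivity
    nlinarith
  have h6 : exp T * exp (κ * (4 * D + 1) * T) = exp ((1 + κ * (4 * D + 1)) * T) := by
    rw [← Real.exp_add]
    congr 1
    ring
  calc _ ≤ (10 * D + 5) * (2 * exp T) + ((12 * D + 9) * (2 * exp T)) *
        (A * exp (κ * D) * exp (κ * (4 * D + 1) * T)) := by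
        have h7 : (10 * D + 5) * T ^ 2 ≤ (10 * D + 5) * (2 * exp T) := by gcongr
        linarith
    _ = 2 * (10 * D + 5) * exp T + 2 * (12 * D + 9) * (A * exp (κ * D)) *
        (exp T * exp (κ * (4 * D + 1) * T)) := by ring
    _ ≤ 2 * (10 * D + 5) * exp ((1 + κ * (4 * D + 1)) * T) +
        2 * (12 * D + 9) * (A * exp (κ * D)) * exp ((1 + κ * (4 * D + 1)) * T) := by
        rw [h6]
        gcongr
    _ = _ := by ring

/-- the case `N(n/2) > N(n)/2` -/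
theorem Final_big {N : ℝ → ℝ} (hmono : Monotone N) (h0 : ∀ r, 0 ≤ N r) {c : ℝ} (hc : 0 < c)
    (hlin : ∀ n : ℕ, c * (n + 1) ≤ N n) (n : ℕ) (hn : N n / 2 < N (n / 2)) :
    c / 16 * (n ^ 2 * N n) ≤ ∑ i ∈ range (n + 1), N i * N (n - i) := by
  have h1 : ∑ i ∈ range (n / 2 + 1), N i * N (n - i) ≤ ∑ i ∈ range (n + 1), N i * N (n - i) := by
    apply Finset.sum_le_sum_of_subset_of_nonneg
    · apply Finset.range_mono
      omega
    · intro i _ _
      exact mul_nonneg (h0 _) (h0 _)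
  have h2 : ∀ i ∈ range (n / 2 + 1), c * ((i : ℝ) + 1) * (N n / 2) ≤ N i * N (n - i) := by
    intro i hi
    rw [Finset.mem_range] at hi
    have h3 : N (n / 2) ≤ N (n - i) := by
      apply hmono
      have : 2 * i ≤ n := by omega
      have : (2 : ℝ) * i ≤ n := by exact_mod_cast this
      linarith
    have h4 := hlin i
    have h5 : N n / 2 ≤ N (n - i) := hn.le.trans h3
    have h6 := h0 n
    have h7 : 0 ≤ N n / 2 := by linarith
    calc c * ((i : ℝ) + 1) * (N n / 2) ≤ N i * (N n / 2) := by gcongr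
      _ ≤ N i * N (n - i) := mul_le_mul_of_nonneg_left h5 (h0 _)
  have h8 : ∑ i ∈ range (n / 2 + 1), c * ((i : ℝ) + 1) * (N n / 2) =
      c * (N n / 2) * ∑ i ∈ range (n / 2 + 1), ((i : ℝ) + 1) := by
    rw [Finset.mul_sum]
    refine Finset.sum_congr rfl fun i _ => ?_
    ring
  have h9 : ∀ m : ℕ, ∑ i ∈ range (m + 1), ((i : ℝ) + 1) = ((m : ℝ) + 1) * ((m : ℝ) + 2) / 2 := by
    intro m
    induction m with
    | zero => norm_num
    | succ m ih =>
      rw [Finset.sum_range_succ, ih]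
      push_cast
      ring
  have h10 : (n : ℝ) / 2 ≤ ((n / 2 : ℕ) : ℝ) + 1 := by
    have : n ≤ 2 * (n / 2 + 1) := by omega
    have : (n : ℝ) ≤ 2 * (((n / 2 : ℕ) : ℝ) + 1) := by exact_mod_cast this
    linarith
  have h11 : (n : ℝ) ^ 2 / 8 ≤ (((n / 2 : ℕ) : ℝ) + 1) * (((n / 2 : ℕ) : ℝ) + 2) / 2 := by
    have h12 : (0 : ℝ) ≤ n := Nat.cast_nonneg n
    nlinarith
  have h13 := Finset.sum_le_sum h2
  rw [h8, h9] at h13
  have h14 : 0 ≤ c * (N n / 2) := by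
    have := h0 n
    positivity
  calc c / 16 * (n ^ 2 * N n) = c * (N n / 2) * ((n : ℝ) ^ 2 / 8) := by ring
    _ ≤ c * (N n / 2) * ((((n / 2 : ℕ) : ℝ) + 1) * (((n / 2 : ℕ) : ℝ) + 2) / 2) := by gcongr
    _ ≤ _ := h13.trans h1

theorem abstract_final {N : ℝ → ℝ} (hmono : Monotone N) (h0 : ∀ r, 0 ≤ N r) {c : ℝ} (hc : 0 < c)
    (hlin : ∀ n : ℕ, c * (n + 1) ≤ N n) {B μ W C : ℝ} (hB : 0 < B) (hμ : 0 < μ) (hW : 1 ≤ W)
    (hC : 0 < C)
    (hmain : ∀ T : ℝ, 1 ≤ T → ∀ J : ℕ, ((J : ℝ) * W) ^ 2 ≤ T → ∀ n : ℕ, B * exp (μ * T) ≤ n / 4 →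
      N (n / 2) ≤ N n / 2 →
      (J : ℝ) * (n * N n / 8) ≤ C * ∑ i ∈ range (n + 1), N i * N (n - i)) :
    ∃ c' : ℝ, 0 < c' ∧ ∃ n₀ : ℕ, ∀ n : ℕ, n₀ ≤ n →
      c' * (n * √(log n) * N n) ≤ ∑ i ∈ range (n + 1), N i * N (n - i) := by
  have hW0 : 0 < W := by linarith
  have hs : 0 < √(2 * μ) := Real.sqrt_pos.mpr (by positivity)
  refine ⟨min (1 / (16 * C * W * √(2 * μ))) (c / 16), lt_min (by positivity) (by positivity),
    ⌈16 * B ^ 2 + exp (8 * μ * W ^ 2)⌉₊ + 1, ?_⟩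
  intro n hn
  have hn1 : 16 * B ^ 2 + exp (8 * μ * W ^ 2) ≤ n := by
    have h1 := Nat.le_ceil (16 * B ^ 2 + exp (8 * μ * W ^ 2))
    have h2 : ((⌈16 * B ^ 2 + exp (8 * μ * W ^ 2)⌉₊ + 1 : ℕ) : ℝ) ≤ n := by exact_mod_cast hn
    push_cast at h2
    linarith
  have hn2 : exp (8 * μ * W ^ 2) ≤ n := by nlinarith [sq_nonneg B]
  have hn3 : 16 * B ^ 2 ≤ n := by
    have := Real.exp_pos (8 * μ * W ^ 2)
    linarith
  have hn0 : (0 : ℝ) < n := lt_of_lt_of_le (Real.exp_pos _) hn2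
  have hlog : 8 * μ * W ^ 2 ≤ log n := by
    rw [Real.le_log_iff_exp_le hn0]
    exact hn2
  have hW2 : 1 ≤ W ^ 2 := by nlinarith
  have hlog0 : 0 ≤ log n := le_trans (by positivity) hlog
  have hX0 : 0 ≤ (n : ℝ) * √(log n) * N n := by
    have := h0 n
    positivity
  rcases le_or_gt (N (n / 2)) (N n / 2) with hcase | hcase
  · obtain ⟨T, hT⟩ : ∃ T : ℝ, T = log n / (2 * μ) := ⟨_, rfl⟩
    have hT4 : 4 * W ^ 2 ≤ T := by
      rw [hT, le_div_iff₀ (by positivity)]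
      linarith
    have hT1 : 1 ≤ T := by linarith
    have hT0 : 0 ≤ T := by linarith
    have hsT : 2 * W ≤ √T := by
      apply Real.le_sqrt_of_sq_le
      linarith
    obtain ⟨J, hJ⟩ : ∃ J : ℕ, J = ⌊√T / W⌋₊ := ⟨_, rfl⟩
    have hJ1 : (J : ℝ) ≤ √T / W := by
      rw [hJ]
      exact Nat.floor_le (by positivity)
    have hJ2 : √T / (2 * W) ≤ J := by
      have h1 : √T / W < J + 1 := by
        rw [hJ]
        exact Nat.lt_floor_add_one _
      have h2 : 1 ≤ √T / (2 * W) := by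
        rw [le_div_iff₀ (by positivity)]
        linarith
      have h3 : √T / W = √T / (2 * W) + √T / (2 * W) := by
        field_simp
        ring
      linarith
    have hJW : ((J : ℝ) * W) ^ 2 ≤ T := by
      have h1 : (J : ℝ) * W ≤ √T := by
        rw [le_div_iff₀ hW0] at hJ1
        exact hJ1
      calc ((J : ℝ) * W) ^ 2 ≤ √T ^ 2 := by gcongr
        _ = T := Real.sq_sqrt hT0
    have hexp : B * exp (μ * T) ≤ n / 4 := by
      have h1 : exp (μ * T) = √n := by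
        have e : μ * T = log n / 2 := by
          rw [hT]
          field_simp
        rw [e, Real.sqrt_eq_rpow, Real.rpow_def_of_pos hn0]
        congr 1
        ring
      rw [h1]
      have h2 : 4 * B ≤ √n := by
        apply Real.le_sqrt_of_sq_le
        nlinarith
      have h3 : √n * √n = n := Real.mul_self_sqrt hn0.le
      have h4 : 0 ≤ √(n : ℝ) := Real.sqrt_nonneg _
      nlinarith
    have h1 := hmain T hT1 J hJW n hexp hcase
    have h2 : √T = √(log n) / √(2 * μ) := by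
      rw [hT, Real.sqrt_div hlog0]
    have h3 : 1 / (16 * C * W * √(2 * μ)) * ((n : ℝ) * √(log n) * N n) ≤
        ∑ i ∈ range (n + 1), N i * N (n - i) := by
      have h4 : √T / (2 * W) * (n * N n / 8) ≤ C * ∑ i ∈ range (n + 1), N i * N (n - i) := by
        refine le_trans ?_ h1
        have := h0 n
        gcongr
      rw [h2] at h4
      have h5 : 1 / (16 * C * W * √(2 * μ)) * ((n : ℝ) * √(log n) * N n) =
          (√(log n) / √(2 * μ) / (2 * W) * (n * N n / 8)) / C := by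
        field_simp
        ring
      rw [h5, div_le_iff₀ hC]
      linarith
    refine le_trans ?_ h3
    exact mul_le_mul_of_nonneg_right (min_le_left _ _) hX0
  · have h1 := Final_big hmono h0 hc hlin n hcase
    refine le_trans ?_ h1
    refine le_trans (mul_le_mul_of_nonneg_right (min_le_right _ _) hX0) ?_
    have h2 : √(log n) ≤ n := by
      apply Real.sqrt_le_iff.mpr
      refine ⟨hn0.le, ?_⟩
      have h3 : log n ≤ (n : ℝ) - 1 := Real.log_le_sub_one_of_pos hn0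
      nlinarith [sq_nonneg ((n : ℝ) - 1)]
    have h4 := h0 n
    have h5 : (n : ℝ) * √(log n) * N n ≤ (n : ℝ) ^ 2 * N n := by
      have : (n : ℝ) * √(log n) ≤ n ^ 2 := by
        rw [sq]
        gcongr
      gcongr
    gcongr

end Pool.Agent.H25.PE
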