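import Pool.Agent.H25.Lp.Grow

/-!
# Crude growth estimates

JOB PE-7. `N(r) = (near G x x r).card`, `N(r) ≥ 1` for `r ≥ 0` (the identity).
`ratio_all`: from `nb_ratio` (Lp/Grow.lean; constants `D`, `C`): for `r ≥ D` use it; for `0 ≤ r < D`,
`N(r+s) ≤ N(D+s) ≤ N(D+s) N(r)` (`gr_mono`). Constant `max C N(D+s) + 1`.
`exp_bound`: `ratio_all` with `s = 1`: `N(m) ≤ C^m N(0)` for `m : ℕ`, `N(r) ≤ N(⌈r⌉₊)`, `⌈r⌉₊ ≤ r + 1`; with
`C ≥ 1` (enlarge it), `C^m = exp (m log C)`.
`linear_bound`: `hcoc.orbit x` gives `R` with: every `z` is within `R` of the orbit, `D = max R 0`. As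
`G` is infinite and `near G x x r` is finite, for every `m : ℕ` there is `g` with `dist x (g•x) > m` .
For given `n` take `m ≥ (2D+1) n`, the points `y j = rad x ((2D+1) j) (g•x)`, `j ≤ n`, and `h j` with
`dist (y j) (h j•x) ≤ D`; the `h j` are pairwise different (`dist x (y j) = (2D+1) j`) and
`dist x (h j•x) ≤ (2D+1) j + D`. So `N(n) ≥ #{j : (2D+1) j + D ≤ n} ≥ (n-D)/(2D+1)`, and with `N(n) ≥ 1`:
`N(n) ≥ (n+1)/(4D+2)` for all `n` (if `n + 1 ≤ 4D+2` trivial; else `(n-D)/(2D+1) ≥ (n+1)/(4D+2)`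
since `2(n-D) ≥ n+1`, i.e. `n ≥ 2D+1`).
-/

open Set

namespace Pool.Agent.H25.PE

open Pool.Agent.H29 Pool.Agent.H25.Bet Pool.Agent.H25.Lp

variable {G X : Type*} [Group G] [MetricSpace X] [IsCAT0 X] [ProperSpace X] [MulAction G X]
  [IsIsometricSMul G X] [ProperlyDiscontinuousSMul G X]

omit [IsCAT0 X] in
lemma one_le_near (x : X) {r : ℝ} (hr : 0 ≤ r) : (1 : ℝ) ≤ (near G x x r).card := by
  have : 1 ≤ (near G x x r).card := by
    rw [Nat.one_le_iff_ne_zero, Finset.card_ne_zero]
    exact ⟨1, mem_near.2 (by rw [one_smul, dist_self]; exact hr)⟩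
  exact_mod_cast this

theorem ratio_all (hcoc : Cocompact G X) (x : X) {s : ℝ} (hs : 0 ≤ s) : ∃ C : ℝ, 1 ≤ C ∧
    ∀ r : ℝ, 0 ≤ r → ((near G x x (r + s)).card : ℝ) ≤ C * (near G x x r).card := by
  obtain ⟨D, hD, hrat⟩ := nb_ratio (G := G) hcoc x
  obtain ⟨C, hC, h⟩ := hrat s hs
  have hN : (0 : ℝ) ≤ (near G x x (D + s)).card := Nat.cast_nonneg _
  refine ⟨1 + C + (near G x x (D + s)).card, by linarith, fun r hr => ?_⟩
  have h1 := one_le_near (G := G) x hr
  rcases le_or_gt D r with hDr | hDr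
  · have h2 := h r hDr
    nlinarith
  · have h2 : ((near G x x (r + s)).card : ℝ) ≤ (near G x x (D + s)).card :=
      gr_mono (by linarith)
    nlinarith

theorem exp_bound (hcoc : Cocompact G X) (x : X) : ∃ A κ : ℝ, 1 ≤ A ∧ 0 < κ ∧
    ∀ r : ℝ, 0 ≤ r → ((near G x x r).card : ℝ) ≤ A * Real.exp (κ * r) := by
  obtain ⟨C, hC, h⟩ := ratio_all (G := G) hcoc x (s := 1) zero_le_one
  have hN0 := one_le_near (G := G) x (r := 0) le_rfl
  have hC1 : (1 : ℝ) < C + 1 := by linarith
  have hpow : ∀ m : ℕ, ((near G x x (m : ℝ)).card : ℝ) ≤ (C + 1) ^ m * (near G x x 0).card := by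
    intro m
    induction m with
    | zero => simp
    | succ m ih =>
      have h1 := h m (Nat.cast_nonneg m)
      have h2 : (0 : ℝ) ≤ (near G x x (m : ℝ)).card := Nat.cast_nonneg _
      have e : ((m + 1 : ℕ) : ℝ) = (m : ℝ) + 1 := by push_cast; ring
      rw [e]
      calc ((near G x x ((m : ℝ) + 1)).card : ℝ) ≤ C * (near G x x (m : ℝ)).card := h1
        _ ≤ (C + 1) * (near G x x (m : ℝ)).card := by nlinarith
        _ ≤ (C + 1) * ((C + 1) ^ m * (near G x x 0).card) :=
          mul_le_mul_of_nonneg_left ih (by linarith)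
        _ = (C + 1) ^ (m + 1) * (near G x x 0).card := by ring
  have hlog : 0 < Real.log (C + 1) := Real.log_pos hC1
  refine ⟨(C + 1) * (near G x x 0).card, Real.log (C + 1), by nlinarith, hlog, fun r hr => ?_⟩
  have h1 : ((near G x x r).card : ℝ) ≤ (near G x x ((⌈r⌉₊ : ℕ) : ℝ)).card := gr_mono (Nat.le_ceil r)
  have h2 : ((⌈r⌉₊ : ℕ) : ℝ) ≤ r + 1 := (Nat.ceil_lt_add_one hr).le
  have h3 : (C + 1) ^ ⌈r⌉₊ ≤ (C + 1) * Real.exp (Real.log (C + 1) * r) := by
    have e1 : (C + 1) ^ ⌈r⌉₊ = Real.exp (Real.log (C + 1) * ((⌈r⌉₊ : ℕ) : ℝ)) := by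
      rw [mul_comm, Real.exp_nat_mul, Real.exp_log (by linarith)]
    have e2 : (C + 1) * Real.exp (Real.log (C + 1) * r) =
        Real.exp (Real.log (C + 1) * (r + 1)) := by
      rw [mul_add, mul_one, Real.exp_add, Real.exp_log (by linarith), mul_comm]
    rw [e1, e2]
    exact Real.exp_le_exp.2 (mul_le_mul_of_nonneg_left h2 hlog.le)
  calc ((near G x x r).card : ℝ) ≤ (near G x x ((⌈r⌉₊ : ℕ) : ℝ)).card := h1
    _ ≤ (C + 1) ^ ⌈r⌉₊ * (near G x x 0).card := hpow _
    _ ≤ ((C + 1) * Real.exp (Real.log (C + 1) * r)) * (near G x x 0).card :=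
      mul_le_mul_of_nonneg_right h3 (by linarith)
    _ = _ := by ring

theorem linear_bound [Infinite G] (hcoc : Cocompact G X) (x : X) : ∃ c : ℝ, 0 < c ∧
    ∀ n : ℕ, c * (n + 1) ≤ ((near G x x n).card : ℝ) := by
  obtain ⟨R, hR⟩ := hcoc.orbit x
  set D := max R 0 with hDdef
  have hD0 : 0 ≤ D := le_max_right _ _
  have hRD : R ≤ D := le_max_left _ _
  have hL : 0 < 2 * D + 1 := by linarith
  refine ⟨1 / (4 * D + 2), by positivity, fun n => ?_⟩
  have h1 := one_le_near (G := G) x (r := (n : ℝ)) (Nat.cast_nonneg n)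
  rcases le_or_gt ((n : ℝ) + 1) (4 * D + 2) with hn | hn
  · refine le_trans ?_ h1
    rw [one_div, inv_mul_le_iff₀ (by linarith)]
    linarith
  · obtain ⟨g, hg⟩ := Infinite.exists_notMem_finset (near G x x (n : ℝ))
    have hg' : (n : ℝ) < dist x (g • x) := by
      by_contra hc
      exact hg (mem_near.2 (not_lt.1 hc))
    choose h hh using fun j : ℕ => hR (rad x ((2 * D + 1) * j) (g • x))
    have hnD : 0 ≤ ((n : ℝ) - D) / (2 * D + 1) := div_nonneg (by linarith) hL.le
    set k := ⌊((n : ℝ) - D) / (2 * D + 1)⌋₊ + 1 with hk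
    have hj : ∀ j < k, (2 * D + 1) * (j : ℝ) ≤ n - D := by
      intro j hjk
      have h2 : j ≤ ⌊((n : ℝ) - D) / (2 * D + 1)⌋₊ := by omega
      have h3 : (j : ℝ) ≤ ((n : ℝ) - D) / (2 * D + 1) :=
        (Nat.cast_le.2 h2).trans (Nat.floor_le hnD)
      rw [le_div_iff₀ hL] at h3
      linarith
    have hj0 : ∀ j : ℕ, 0 ≤ (2 * D + 1) * (j : ℝ) := fun j => by positivity
    have hdist : ∀ j < k, dist x (rad x ((2 * D + 1) * j) (g • x)) = (2 * D + 1) * j := by
      intro j hjk
      have := hj j hjk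
      exact dist_rad (hj0 j) (by linarith)
    have hcard : k ≤ (near G x x (n : ℝ)).card := by
      have h5 : (Finset.range k).card ≤ (near G x x (n : ℝ)).card := by
        refine Finset.card_le_card_of_injOn h ?_ ?_
        · intro j hjk
          have hjk' : j < k := Finset.mem_range.1 hjk
          refine mem_near.2 ?_
          have h6 := dist_triangle x (rad x ((2 * D + 1) * j) (g • x)) (h j • x)
          have h7 := hh j
          have h8 := hdist j hjk'
          have h9 := hj j hjk'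
          linarith
        · intro i hik j hjk hij
          have hik' : i < k := Finset.mem_range.1 hik
          have hjk' : j < k := Finset.mem_range.1 hjk
          have a1 := hh i
          have a2 := hh j
          rw [← hij] at a2
          have a3 := hdist i hik'
          have a4 := hdist j hjk'
          have a5 := dist_triangle x (rad x ((2 * D + 1) * i) (g • x)) (h i • x)
          have a6 := dist_triangle x (rad x ((2 * D + 1) * j) (g • x)) (h i • x)
          have a7 := dist_triangle x (h i • x) (rad x ((2 * D + 1) * i) (g • x))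
          have a8 := dist_triangle x (h i • x) (rad x ((2 * D + 1) * j) (g • x))
          rw [dist_comm (h i • x)] at a7 a8
          have b1 : (2 * D + 1) * (i : ℝ) - (2 * D + 1) * j ≤ 2 * D := by linarith
          have b2 : (2 * D + 1) * (j : ℝ) - (2 * D + 1) * i ≤ 2 * D := by linarith
          rcases lt_trichotomy i j with hlt | heq | hgt
          · exfalso
            have : (i : ℝ) + 1 ≤ j := by exact_mod_cast hlt
            nlinarith
          · exact heq
          · exfalso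
            have : (j : ℝ) + 1 ≤ i := by exact_mod_cast hgt
            nlinarith
      rwa [Finset.card_range] at h5
    have hkr : ((n : ℝ) - D) / (2 * D + 1) ≤ k := by
      rw [hk]
      push_cast
      exact (Nat.lt_floor_add_one _).le
    have hkN : (k : ℝ) ≤ (near G x x (n : ℝ)).card := by exact_mod_cast hcard
    refine le_trans ?_ (hkr.trans hkN)
    rw [le_div_iff₀ hL]
    have e : 1 / (4 * D + 2) * ((n : ℝ) + 1) * (2 * D + 1) = ((n : ℝ) + 1) / 2 := by
      have : 4 * D + 2 = 2 * (2 * D + 1) := by ring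
      rw [this]
      field_simp
    rw [e]
    linarith

end Pool.Agent.H25.PE
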