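import Pool.Agent.H25.PE.Sum
import Pool.Agent.H25.PE.GrowB
import Pool.Agent.H25.PE.Final

/-!
# Without rank-one isometries the orbit growth is not purely exponential

`growth_main`: assembly.
-/

open Set

namespace Pool.Agent.H25.PE

open Pool.Agent.H29 Pool.Agent.H25.Bet Pool.Agent.H25.Lp Real

variable {G X : Type*} [Group G] [MetricSpace X] [IsCAT0 X] [ProperSpace X] [MulAction G X]
  [IsIsometricSMul G X] [ProperlyDiscontinuousSMul G X]

theorem growth_main [Infinite G] (hcoc : Cocompact G X) (hno : ¬ ∃ g : G, IsRankOne (X := X) g)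
    (x : X) : ∃ c : ℝ, 0 < c ∧ ∃ n₀ : ℕ, ∀ n : ℕ, n₀ ≤ n →
      c * (n * √(log n) * ((near G x x n).card : ℝ)) ≤
        ∑ i ∈ Finset.range (n + 1), ((near G x x i).card : ℝ) * (near G x x (n - i)).card := by
  classical
  obtain ⟨R, hR⟩ := hcoc.orbit x
  choose q hq using hR
  set D := max R 0 with hD
  have hD0 : 0 ≤ D := le_max_right _ _
  have hq' : ∀ z, dist z (q z • x) ≤ D := fun z => (hq z).trans (le_max_left _ _)
  obtain ⟨A, κ, hA, hκ, hexp⟩ := exp_bound (G := G) hcoc x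
  obtain ⟨C₂, hC₂, hrat⟩ := ratio_all (G := G) hcoc x (s := 2 * D + 3) (by positivity)
  obtain ⟨c, hc, hlin⟩ := linear_bound (G := G) hcoc x
  obtain ⟨B, μ, hB, hμ, hsmall⟩ :=
    few_small (N := fun r => ((near G x x r).card : ℝ)) hD0 hA hκ hexp
  refine abstract_final (N := fun r => ((near G x x r).card : ℝ)) (fun r s h => gr_mono h)
    (fun r => Nat.cast_nonneg _) hc hlin hB hμ (W := 2 * D + 1) (by linarith) (C := C₂ ^ 2)
    (by positivity) ?_
  intro T hT J hJ n hn hhalf
  have hsm := hsmall T hT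
  set L := ⌈(8 * D * T + 2 * D + T) + (4 * T ^ 2 + 2 * T + 1 + 2 * D)⌉₊ with hL
  have hLc : (8 * D * T + 2 * D + T) + (4 * T ^ 2 + 2 * T + 1 + 2 * D) ≤ L := Nat.le_ceil _
  have hp1 : 0 ≤ 8 * D * T + 2 * D + T := by positivity
  have hp2 : 0 ≤ 4 * T ^ 2 + 2 * T + 1 + 2 * D := by positivity
  set S := (near G x x n).filter (fun k => (n : ℝ) / 2 < dist x (k • x)) with hS
  have key := pair_sum hcoc hno hD0 hq' hT (L := L) (by linarith) (by linarith) hJ n
    (S := S) (Finset.filter_subset _ _)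
  -- the cardinality of `S`
  have hcard : ((near G x x n).card : ℝ) / 2 ≤ S.card := by
    have h1 : near G x x n ⊆ S ∪ near G x x ((n : ℝ) / 2) := by
      intro k hk
      rw [Finset.mem_union]
      by_cases h : (n : ℝ) / 2 < dist x (k • x)
      · left
        exact Finset.mem_filter.2 ⟨hk, h⟩
      · right
        exact mem_near.2 (not_lt.1 h)
    have h2 := (Finset.card_le_card h1).trans (Finset.card_union_le _ _)
    have h3 : ((near G x x n).card : ℝ) ≤ S.card + (near G x x ((n : ℝ) / 2)).card := by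
      exact_mod_cast h2
    linarith
  -- lower bound
  have hlow : (n : ℝ) * ((near G x x n).card : ℝ) / 8 ≤ ∑ k ∈ S, (dist x (k • x) -
      (2 * ((4 * D + 1) * T + D) + 3 + L * ((near G x x ((4 * D + 1) * T + D)).card : ℝ))) := by
    have h1 : ∀ k ∈ S, (n : ℝ) / 4 ≤ dist x (k • x) -
        (2 * ((4 * D + 1) * T + D) + 3 + L * ((near G x x ((4 * D + 1) * T + D)).card : ℝ)) := by
      intro k hk
      have h2 := (Finset.mem_filter.1 hk).2
      linarith
    have h2 := Finset.card_nsmul_le_sum S _ _ h1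
    rw [nsmul_eq_mul] at h2
    refine le_trans ?_ h2
    have hn0 : (0 : ℝ) ≤ n := Nat.cast_nonneg _
    nlinarith
  have hup : ∑ i ∈ Finset.range (n + 1), ((near G x x (i + (2 * D + 3))).card : ℝ) *
        (near G x x ((n - i : ℝ) + (2 * D + 3))).card ≤
      C₂ ^ 2 * ∑ i ∈ Finset.range (n + 1), ((near G x x i).card : ℝ) * (near G x x (n - i)).card := by
    rw [Finset.mul_sum]
    refine Finset.sum_le_sum fun i hi => ?_
    have hi' : (i : ℝ) ≤ n := by
      exact_mod_cast Nat.lt_succ_iff.1 (Finset.mem_range.1 hi)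
    have h1 := hrat i (Nat.cast_nonneg _)
    have h2 := hrat ((n : ℝ) - i) (by linarith)
    calc ((near G x x (i + (2 * D + 3))).card : ℝ) * (near G x x ((n - i : ℝ) + (2 * D + 3))).card
        ≤ (C₂ * (near G x x i).card) * (C₂ * (near G x x (n - i)).card) :=
          mul_le_mul h1 h2 (Nat.cast_nonneg _) (by positivity)
      _ = _ := by ring
  calc (J : ℝ) * (n * ((near G x x n).card : ℝ) / 8) ≤ (J : ℝ) * ∑ k ∈ S, (dist x (k • x) -
      (2 * ((4 * D + 1) * T + D) + 3 + L * ((near G x x ((4 * D + 1) * T + D)).card : ℝ))) :=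
        mul_le_mul_of_nonneg_left hlow (Nat.cast_nonneg _)
    _ ≤ _ := key
    _ ≤ _ := hup

/-- the number of elements of `G` which move `x` by at most `n` -/
theorem growth_ncard [Infinite G] (hcoc : Cocompact G X)
    (hno : ¬ ∃ g : G, IsRankOne (X := X) g) (x : X) : ∃ c : ℝ, 0 < c ∧ ∃ n₀ : ℕ, ∀ n : ℕ, n₀ ≤ n →
      c * (n * √(log n) * ({g : G | dist x (g • x) ≤ n}.ncard : ℝ)) ≤
        ∑ i ∈ Finset.range (n + 1), ({g : G | dist x (g • x) ≤ i}.ncard : ℝ) *
          ({g : G | dist x (g • x) ≤ ((n - i : ℕ) : ℝ)}.ncard : ℝ) := by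
  obtain ⟨c, hc, n₀, h⟩ := growth_main (G := G) hcoc hno x
  have e : ∀ r : ℝ, {g : G | dist x (g • x) ≤ r}.ncard = (near G x x r).card := by
    intro r
    rw [← Set.ncard_coe_finset]
    congr 1
    ext g
    rw [Finset.mem_coe, mem_near]
    rfl
  refine ⟨c, hc, n₀, fun n hn => ?_⟩
  have h1 := h n hn
  rw [e]
  refine h1.trans (le_of_eq ?_)
  refine Finset.sum_congr rfl fun i hi => ?_
  rw [e, e, Nat.cast_sub (Nat.lt_succ_iff.1 (Finset.mem_range.1 hi))]

theorem rankOne_of_growth {G : Type*} {X : Type*} [Group G] [Infinite G] [MetricSpace X] [IsCAT0 X]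
    [LocallyCompactSpace X] [MulAction G X] [IsIsometricSMul G X]
    [ProperlyDiscontinuousSMul G X] (hcoc : Cocompact G X) (x : X)
    (hgrowth : ∀ ε : ℝ, 0 < ε → ∃ᶠ n : ℕ in Filter.atTop,
      ∑ i ∈ Finset.range (n + 1), ({g : G | dist x (g • x) ≤ i}.ncard : ℝ) *
          ({g : G | dist x (g • x) ≤ ((n - i : ℕ) : ℝ)}.ncard : ℝ) ≤
        ε * (n * √(Real.log n) * ({g : G | dist x (g • x) ≤ n}.ncard : ℝ))) :
    ∃ g : G, IsRankOne (X := X) g := by
  have : ProperSpace X := hcoc.properSpace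
  by_contra hno
  obtain ⟨c, hc, n₀, h⟩ := growth_ncard (G := G) hcoc hno x
  obtain ⟨n, hn, hle⟩ := Filter.frequently_atTop.1 (hgrowth (c / 2) (by positivity)) (max n₀ 2)
  have h1 := h n ((le_max_left _ _).trans hn)
  have hn2 : 2 ≤ n := (le_max_right _ _).trans hn
  have hn2' : (2 : ℝ) ≤ n := by exact_mod_cast hn2
  have hlog : 0 < √(Real.log n) := Real.sqrt_pos.2 (Real.log_pos (by linarith))
  have e : {g : G | dist x (g • x) ≤ (n : ℝ)}.ncard = (near G x x n).card := by
    rw [← Set.ncard_coe_finset]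
    congr 1
    ext g
    rw [Finset.mem_coe, mem_near]
    rfl
  have hN : (1 : ℝ) ≤ (near G x x n).card := one_le_near x (by linarith)
  rw [← e] at hN
  have hpos : 0 < (n : ℝ) * √(Real.log n) * ({g : G | dist x (g • x) ≤ n}.ncard : ℝ) := by
    have : (0 : ℝ) < n := by linarith
    have : (0 : ℝ) < ({g : G | dist x (g • x) ≤ n}.ncard : ℝ) := by linarith
    positivity
  have h2 := h1.trans hle
  have h3 : c / 2 * (n * √(Real.log n) * ({g : G | dist x (g • x) ≤ n}.ncard : ℝ)) <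
      c * (n * √(Real.log n) * ({g : G | dist x (g • x) ≤ n}.ncard : ℝ)) :=
    mul_lt_mul_of_pos_right (by linarith) hpos
  linarith

end Pool.Agent.H25.PE
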