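import Pool.Agent.H25.PE.Wide
import Pool.Agent.H25.PE.Dir

/-!
# Two gates with the same backward direction give a rank-one isometry

JOB PE-4 (`not_gate_pair`). Let `w = g⁻¹*h`. `dist x (w•x) = dist (g•x) (h•x) ≥ (j-i) - 2D ≥ 4T^2+2T+1`
(`dist_rad_rad`). `rankOne_of_gate` (Bet/Gate.lean) gives `¬ Gate T x (w⁻¹•x) (w•x)`, so there are `u, v`
with `T ≤ dist x u`, `T ≤ dist x v`, `dist (rad x T u) (rad x T (w⁻¹•x)) ≤ 1`,
`dist (rad x T v) (rad x T (w•x)) ≤ 1` and `T ≤ dist x (pt u v s)` for all `s`.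
(1) `dir_near` with `y = g•x`, `p = rad x i (k•x)`, `E = k•x`, `r = rad x j (k•x)`, `z = h•x`
(`rad_between_right`) and `rad_smul g⁻¹`: `dist (rad x T (w•x)) (rad x T (g⁻¹•k•x)) ≤ 1/2`.
(2) `dir_near` with `y = h•x`, `p = rad x j (k•x)`, `E = x`, `r = rad x i (k•x)`, `z = g•x`
(`rad_between_left`) and `rad_smul h⁻¹`: `dist (rad x T (w⁻¹•x)) (rad x T (h⁻¹•x)) ≤ 1/2`
(`w⁻¹ = h⁻¹*g`).
So `dist (rad x T u) (rad x T (g⁻¹•x)) ≤ 1 + 1/2 + 1/2` and `dist (rad x T v) (rad x T (g⁻¹•k•x)) ≤ 3/2`,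
and a `Gate2` would give a point `pt u v s` with `dist < T`.
-/

open Set

namespace Pool.Agent.H25.PE

open Pool.Agent.H29 Pool.Agent.H25.Bet Pool.Agent.H25.Lp

variable {G X : Type*} [Group G] [MetricSpace X] [IsCAT0 X] [ProperSpace X] [MulAction G X]
  [IsIsometricSMul G X] [ProperlyDiscontinuousSMul G X]

theorem not_gate_pair (hcoc : Cocompact G X) (hno : ¬ ∃ g : G, IsRankOne (X := X) g)
    {T D : ℝ} (hT : 1 ≤ T) (hD : 0 ≤ D) {x : X} {g h k : G} {i j : ℝ} (hi : 0 ≤ i)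
    (hj : j ≤ dist x (k • x)) (hL1 : 8 * D * T + 2 * D + T ≤ j - i)
    (hL2 : 4 * T ^ 2 + 2 * T + 1 + 2 * D ≤ j - i)
    (hg : dist (rad x i (k • x)) (g • x) ≤ D) (hh : dist (rad x j (k • x)) (h • x) ≤ D)
    (hdir : dist (rad x T (g⁻¹ • x)) (rad x T (h⁻¹ • x)) ≤ 1 / 2) :
    ¬ Gate2 T x (g⁻¹ • x) (g⁻¹ • k • x) := by
  intro hg2
  have hT0 : 0 ≤ T := by linarith
  have hDT : 0 ≤ 8 * D * T := by positivity
  have hij : i ≤ j := by linarith
  have hj0 : 0 ≤ j := hi.trans hij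
  have hpr : dist (rad x i (k • x)) (rad x j (k • x)) = j - i := dist_rad_rad hi hij hj
  -- the displacement of `g⁻¹ * h`
  have hgh : (j - i) - 2 * D ≤ dist (g • x) (h • x) := by
    have h1 := dist_triangle (rad x i (k • x)) (g • x) (rad x j (k • x))
    have h2 := dist_triangle (g • x) (h • x) (rad x j (k • x))
    rw [dist_comm (h • x) (rad x j (k • x))] at h2
    linarith
  have hw : dist x ((g⁻¹ * h) • x) = dist (g • x) (h • x) := by
    rw [mul_smul, ← dist_smul g x (g⁻¹ • h • x), smul_inv_smul]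
  have hL : 4 * T ^ 2 + 2 * T + 1 ≤ dist x ((g⁻¹ * h) • x) := by
    rw [hw]; linarith
  have hno' : ¬ Gate T x ((g⁻¹ * h)⁻¹ • x) ((g⁻¹ * h) • x) := fun hgate =>
    hno ⟨g⁻¹ * h, rankOne_of_gate hcoc hT hL hgate⟩
  have hwi : (g⁻¹ * h)⁻¹ • x = h⁻¹ • g • x := by
    rw [mul_inv_rev, inv_inv, mul_smul]
  have hwm : (g⁻¹ * h) • x = g⁻¹ • h • x := mul_smul _ _ _
  rw [hwi, hwm] at hno'
  -- the forward direction
  obtain ⟨a1, a2, a3⟩ := dir_near (y := g • x) (p := rad x i (k • x)) (E := k • x)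
    (r := rad x j (k • x)) (z := h • x) hD hT (rad_between_right hi hij hj)
    (by rw [dist_comm]; exact hg) hh (by rw [hpr]; exact hL1)
  have f1 : dist (rad x T (g⁻¹ • h • x)) (rad x T (g⁻¹ • k • x)) ≤ 1 / 2 := by
    have e1 := rad_smul g⁻¹ hT0 a1
    have e2 := rad_smul g⁻¹ hT0 a2
    rw [inv_smul_smul] at e1 e2
    rw [← e1, ← e2, dist_smul]
    exact a3
  -- the backward direction
  obtain ⟨b1, b2, b3⟩ := dir_near (y := h • x) (p := rad x j (k • x)) (E := x)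
    (r := rad x i (k • x)) (z := g • x) hD hT (rad_between_left hi hij hj)
    (by rw [dist_comm]; exact hh) hg (by rw [dist_comm, hpr]; exact hL1)
  have f2 : dist (rad x T (h⁻¹ • g • x)) (rad x T (h⁻¹ • x)) ≤ 1 / 2 := by
    have e1 := rad_smul h⁻¹ hT0 b1
    have e2 := rad_smul h⁻¹ hT0 b2
    rw [inv_smul_smul] at e1 e2
    rw [← e1, ← e2, dist_smul]
    exact b3
  refine hno' fun u v hu hv hua hvb => hg2 u v hu hv ?_ ?_
  · have t1 := dist_triangle (rad x T u) (rad x T (h⁻¹ • g • x)) (rad x T (g⁻¹ • x))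
    have t2 := dist_triangle (rad x T (h⁻¹ • g • x)) (rad x T (h⁻¹ • x)) (rad x T (g⁻¹ • x))
    rw [dist_comm (rad x T (h⁻¹ • x)) (rad x T (g⁻¹ • x))] at t2
    linarith
  · have t1 := dist_triangle (rad x T v) (rad x T (g⁻¹ • h • x)) (rad x T (g⁻¹ • k • x))
    linarith

end Pool.Agent.H25.PE
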