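import Pool.Agent.H25.PE.Wide

/-!
# Many group elements near a position of a segment which is not a gate

JOB PE-2 (`points`). Let `z` be from `wide_ray` (`a = g⁻¹•x`, `b = g⁻¹•k•x`), `t j = (2D+1)(j+1)`,
`y j = rad x (t j) z` for `j < J` (`1 ≤ t j`, `(t j)^2 ≤ T`, `t j ≤ T ≤ dist x z`), `h j = q (g • y j)`,
`H` the image of `range J`. `dist x (h j•x) ≤ dist x (g•y j) + D`, `dist x (g•y j) = dist (g⁻¹•x) (y j)
≤ dist x (g⁻¹•x) + 3 = dist x (g•x) + 3` (`dist_inv_smul`), similarly for `k•x`: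
`dist (g•y j) (k•x) = dist (y j) (g⁻¹•k•x) ≤ dist x (g⁻¹•k•x) + 3 = dist (g•x) (k•x) + 3`.
Injective: `h i = h j` gives `dist (y i) (y j) ≤ 2D`, but `dist x (y i) = t i` (`dist_rad`), so
`dist (y i) (y j) ≥ |t i - t j| ≥ 2D+1` if `i ≠ j`.
-/

open Set

namespace Pool.Agent.H25.PE

open Pool.Agent.H29 Pool.Agent.H25.Bet Pool.Agent.H25.Lp

variable {G X : Type*} [Group G] [MetricSpace X] [IsCAT0 X] [MulAction G X] [IsIsometricSMul G X]

theorem points {x : X} {q : X → G} {D : ℝ} (hD : 0 ≤ D) (hq : ∀ z, dist z (q z • x) ≤ D)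
    {T : ℝ} (hT : 1 ≤ T) {g k : G} (h1 : T ≤ dist x (g⁻¹ • x)) (h2 : T ≤ dist x (g⁻¹ • k • x))
    (hg : ¬ Gate2 T x (g⁻¹ • x) (g⁻¹ • k • x)) {J : ℕ} (hJ : ((J : ℝ) * (2 * D + 1)) ^ 2 ≤ T) :
    ∃ H : Finset G, J ≤ H.card ∧ ∀ h ∈ H, dist x (h • x) ≤ dist x (g • x) + (D + 3) ∧
      dist (h • x) (k • x) ≤ dist (g • x) (k • x) + (D + 3) := by
  classical
  obtain ⟨z, hz, hw⟩ := wide_ray hT h1 h2 hg
  have hc : 1 ≤ 2 * D + 1 := by linarith
  -- the positions
  have ht1 : ∀ j : ℕ, 1 ≤ (2 * D + 1) * ((j : ℝ) + 1) := by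
    intro j
    have hj : (0 : ℝ) ≤ j := Nat.cast_nonneg j
    nlinarith
  have htT : ∀ j : ℕ, j < J → ((2 * D + 1) * ((j : ℝ) + 1)) ^ 2 ≤ T := by
    intro j hj
    refine le_trans ?_ hJ
    have hj' : (j : ℝ) + 1 ≤ J := by exact_mod_cast hj
    have h0 : 0 ≤ (2 * D + 1) * ((j : ℝ) + 1) := by linarith [ht1 j]
    refine pow_le_pow_left₀ h0 ?_ 2
    rw [mul_comm]
    exact mul_le_mul_of_nonneg_right hj' (by linarith)
  have htz : ∀ j : ℕ, j < J → (2 * D + 1) * ((j : ℝ) + 1) ≤ dist x z := by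
    intro j hj
    have h3 := htT j hj
    have h4 := ht1 j
    nlinarith
  have hy : ∀ j : ℕ, j < J → dist x (rad x ((2 * D + 1) * ((j : ℝ) + 1)) z)
      = (2 * D + 1) * ((j : ℝ) + 1) := fun j hj =>
    dist_rad (by linarith [ht1 j]) (htz j hj)
  have hqd : ∀ (w w' : X), q w • x = q w' • x → dist w w' ≤ 2 * D := by
    intro w w' h
    have h3 := dist_triangle w (q w • x) w'
    have h4 := hq w
    have h5 := hq w'
    rw [← h, dist_comm] at h5
    linarith
  refine ⟨(Finset.range J).image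
    (fun j : ℕ => q (g • rad x ((2 * D + 1) * ((j : ℝ) + 1)) z)), ?_, ?_⟩
  · rw [Finset.card_image_of_injOn, Finset.card_range]
    intro i hi j hj hij
    have hi' : i < J := by simpa using hi
    have hj' : j < J := by simpa using hj
    have h3 : q (g • rad x ((2 * D + 1) * ((i : ℝ) + 1)) z)
        = q (g • rad x ((2 * D + 1) * ((j : ℝ) + 1)) z) := hij
    have h4 := hqd (g • rad x ((2 * D + 1) * ((i : ℝ) + 1)) z)
      (g • rad x ((2 * D + 1) * ((j : ℝ) + 1)) z) (by rw [h3])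
    rw [dist_smul] at h4
    by_contra hne
    have h5 := abs_dist_sub_le (rad x ((2 * D + 1) * ((i : ℝ) + 1)) z)
      (rad x ((2 * D + 1) * ((j : ℝ) + 1)) z) x
    rw [dist_comm _ x, dist_comm _ x, hy i hi', hy j hj'] at h5
    have h6 : (2 * D + 1) * ((i : ℝ) + 1) - (2 * D + 1) * ((j : ℝ) + 1)
        = (2 * D + 1) * ((i : ℝ) - j) := by ring
    rw [h6, abs_mul, abs_of_pos (by linarith : (0 : ℝ) < 2 * D + 1)] at h5
    have h7 : (1 : ℝ) ≤ |(i : ℝ) - j| := by
      have h8 : (i : ℤ) - (j : ℤ) ≠ 0 := by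
        intro h9
        apply hne
        omega
      have h10 := Int.one_le_abs h8
      exact_mod_cast h10
    nlinarith
  · intro h hh
    rw [Finset.mem_image] at hh
    obtain ⟨j, hj, rfl⟩ := hh
    have hj' : j < J := by simpa using hj
    obtain ⟨h3, h4⟩ := hw _ (ht1 j) (htT j hj')
    set y := rad x ((2 * D + 1) * ((j : ℝ) + 1)) z with hydef
    have h5 := hq (g • y)
    have h6 : dist x (g • y) = dist y (g⁻¹ • x) := by
      rw [← dist_smul g y (g⁻¹ • x), smul_inv_smul, dist_comm]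
    have h7 : dist (g • y) (k • x) = dist y (g⁻¹ • k • x) := by
      rw [← dist_smul g y (g⁻¹ • k • x), smul_inv_smul]
    have h8 : dist x (g⁻¹ • x) = dist x (g • x) := dist_inv_smul x g
    have h9 : dist x (g⁻¹ • k • x) = dist (g • x) (k • x) := by
      rw [← dist_smul g x (g⁻¹ • k • x), smul_inv_smul]
    constructor
    · have h10 := dist_triangle x (g • y) (q (g • y) • x)
      linarith
    · have h10 := dist_triangle_left (q (g • y) • x) (k • x) (g • y)
      linarith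

end Pool.Agent.H25.PE
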