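import Pool.Agent.H25.PE.Few
import Pool.Agent.H25.PE.Points

/-!
# The sum over the splittings

JOB PE-6. Put `T' = (4D+1)T`, `g k i = q (rad x i (k•x))`, and call `i : ℕ` a good position of `k` if
`T' + D ≤ i`, `i + (T' + D) ≤ dist x (k•x)` and `¬ Gate2 T x ((g k i)⁻¹•x) ((g k i)⁻¹•k•x)`.
`good_positions`: the natural numbers `i` with `T'+D ≤ i`, `i + (T'+D) ≤ |k| = dist x (k•x)` are at least
`|k| - 2(T'+D) - 1` many (they are the numbers of `Finset.Icc ⌈T'+D⌉₊ ⌊|k|-(T'+D)⌋₊`), all of them are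
`≤ n`, and by `few_gates` at most `L * (near G x x (T'+D)).card` of them have `Gate2`.
`pair_sum`: for `k ∈ S` and a good position `i` let `H k i` be the finset from `points`
(`dist x ((g k i)⁻¹•x) = dist x (g k i•x) ≥ i - D ≥ T'≥ T`, `dist x ((g k i)⁻¹•k•x) = dist (g k i•x) (k•x)
≥ dist x (k•x) - i - D ≥ T`). Its elements `h` satisfy `dist x (h•x) ≤ i + (2D+3)`
(`dist x (g k i•x) ≤ i + D`) and `dist x ((h⁻¹*k)•x) = dist (h•x) (k•x) ≤ dist x (k•x) - i + (2D+3)
≤ n - i + (2D+3)`. For each `i ∈ range (n+1)` the map `(k,h) ↦ (h, h⁻¹*k)` is injective, so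
`J * #{k ∈ S : i good for k} ≤ ∑_{k good} (H k i).card ≤ N(i+(2D+3)) N(n-i+(2D+3))`
(the `Finset.sigma` of the `H k i`). Sum over `i` and exchange the sums.
-/

open Set

namespace Pool.Agent.H25.PE

open Pool.Agent.H29 Pool.Agent.H25.Bet Pool.Agent.H25.Lp

variable {G X : Type*} [Group G] [MetricSpace X] [IsCAT0 X] [ProperSpace X] [MulAction G X]
  [IsIsometricSMul G X] [ProperlyDiscontinuousSMul G X]

open Classical in
theorem good_positions (hcoc : Cocompact G X) (hno : ¬ ∃ g : G, IsRankOne (X := X) g)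
    {x : X} {q : X → G} {D : ℝ} (hD : 0 ≤ D) (hq : ∀ z, dist z (q z • x) ≤ D)
    {T : ℝ} (hT : 1 ≤ T) {L : ℕ} (hL1 : 8 * D * T + 2 * D + T ≤ L)
    (hL2 : 4 * T ^ 2 + 2 * T + 1 + 2 * D ≤ L) {n : ℕ} {k : G} (hk : dist x (k • x) ≤ n) :
    dist x (k • x) - (2 * ((4 * D + 1) * T + D) + 3 +
        L * ((near G x x ((4 * D + 1) * T + D)).card : ℝ)) ≤
      (((Finset.range (n + 1)).filter fun i : ℕ => (4 * D + 1) * T + D ≤ (i : ℝ) ∧
        (i : ℝ) + ((4 * D + 1) * T + D) ≤ dist x (k • x) ∧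
        ¬ Gate2 T x ((q (rad x i (k • x)))⁻¹ • x) ((q (rad x i (k • x)))⁻¹ • k • x)).card : ℝ) := by
  set M : ℝ := (4 * D + 1) * T + D with hM
  set d : ℝ := dist x (k • x) with hd
  have hM0 : 0 ≤ M := by positivity
  set N0 : ℕ := (near G x x M).card with hN0
  set P : Finset ℕ := (Finset.range (n + 1)).filter fun i : ℕ => M ≤ (i : ℝ) ∧
    (i : ℝ) + M ≤ d with hP
  set A : Finset ℕ := P.filter fun i : ℕ =>
    Gate2 T x ((q (rad x i (k • x)))⁻¹ • x) ((q (rad x i (k • x)))⁻¹ • k • x) with hA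
  have hgood : ((Finset.range (n + 1)).filter fun i : ℕ => M ≤ (i : ℝ) ∧
        (i : ℝ) + M ≤ d ∧
        ¬ Gate2 T x ((q (rad x i (k • x)))⁻¹ • x) ((q (rad x i (k • x)))⁻¹ • k • x)) =
      P.filter fun i : ℕ => ¬ Gate2 T x ((q (rad x i (k • x)))⁻¹ • x)
        ((q (rad x i (k • x)))⁻¹ • k • x) := by
    rw [hP, Finset.filter_filter]
    refine Finset.filter_congr fun i _ => ?_
    rw [and_assoc]
  rw [hgood]
  have hcard := Finset.card_filter_add_card_filter_not (s := P) (fun i : ℕ =>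
    Gate2 T x ((q (rad x i (k • x)))⁻¹ • x) ((q (rad x i (k • x)))⁻¹ • k • x))
  have hAc : A.card ≤ L * N0 := by
    refine few_gates hcoc hno hD hq hT hL1 hL2 (k := k) (A := A) fun i hi => ?_
    rw [hA, hP, Finset.mem_filter, Finset.mem_filter] at hi
    refine ⟨hi.1.2.1, ?_, hi.2⟩
    have := hi.1.2.2
    linarith
  have hPc : d - (2 * M + 3) ≤ (P.card : ℝ) := by
    rcases lt_or_ge d M with h | h
    · have : (0 : ℝ) ≤ P.card := Nat.cast_nonneg _
      linarith
    · have hsub : Finset.Icc ⌈M⌉₊ ⌊d - M⌋₊ ⊆ P := by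
        intro i hi
        rw [Finset.mem_Icc] at hi
        have h1 : M ≤ i := (Nat.le_ceil M).trans (by exact_mod_cast hi.1)
        have h2 : (i : ℝ) ≤ d - M := by
          have h3 : (i : ℝ) ≤ (⌊d - M⌋₊ : ℝ) := by exact_mod_cast hi.2
          exact h3.trans (Nat.floor_le (by linarith))
        rw [hP, Finset.mem_filter, Finset.mem_range]
        refine ⟨?_, h1, by linarith⟩
        have : (i : ℝ) < n + 1 := by linarith
        exact_mod_cast this
      have h1 := Finset.card_le_card hsub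
      rw [Nat.card_Icc] at h1
      have h2 : (⌊d - M⌋₊ : ℝ) + 1 - ⌈M⌉₊ ≤ P.card := by
        have : ⌊d - M⌋₊ + 1 ≤ P.card + ⌈M⌉₊ := by omega
        have h3 : ((⌊d - M⌋₊ + 1 : ℕ) : ℝ) ≤ ((P.card + ⌈M⌉₊ : ℕ) : ℝ) := by exact_mod_cast this
        push_cast at h3
        linarith
      have h3 := Nat.lt_floor_add_one (d - M)
      have h4 := Nat.ceil_lt_add_one hM0
      linarith
  have h1 : ((A.card : ℕ) : ℝ) ≤ L * N0 := by exact_mod_cast hAc
  have h2 : (A.card : ℝ) + ((P.filter fun i : ℕ => ¬ Gate2 T x ((q (rad x i (k • x)))⁻¹ • x)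
        ((q (rad x i (k • x)))⁻¹ • k • x)).card : ℝ) = P.card := by
    rw [hA]
    exact_mod_cast hcard
  linarith

omit [IsCAT0 X] [ProperSpace X] [ProperlyDiscontinuousSMul G X] in
lemma sum_dist_inv (x y : X) (g : G) : dist x (g⁻¹ • y) = dist (g • x) y := by
  rw [← dist_smul g x (g⁻¹ • y), smul_inv_smul]

theorem pair_sum (hcoc : Cocompact G X) (hno : ¬ ∃ g : G, IsRankOne (X := X) g)
    {x : X} {q : X → G} {D : ℝ} (hD : 0 ≤ D) (hq : ∀ z, dist z (q z • x) ≤ D)
    {T : ℝ} (hT : 1 ≤ T) {L : ℕ} (hL1 : 8 * D * T + 2 * D + T ≤ L)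
    (hL2 : 4 * T ^ 2 + 2 * T + 1 + 2 * D ≤ L) {J : ℕ} (hJ : ((J : ℝ) * (2 * D + 1)) ^ 2 ≤ T)
    (n : ℕ) {S : Finset G} (hS : S ⊆ near G x x n) :
    (J : ℝ) * ∑ k ∈ S, (dist x (k • x) - (2 * ((4 * D + 1) * T + D) + 3 +
        L * ((near G x x ((4 * D + 1) * T + D)).card : ℝ))) ≤
      ∑ i ∈ Finset.range (n + 1), ((near G x x (i + (2 * D + 3))).card : ℝ) *
        (near G x x ((n - i : ℝ) + (2 * D + 3))).card := by
  classical
  set M : ℝ := (4 * D + 1) * T + D with hM
  have hTM : T + D ≤ M := by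
    have : 0 ≤ D * T := by positivity
    nlinarith
  set c : ℝ := 2 * M + 3 + L * ((near G x x M).card : ℝ) with hc
  set good : G → ℕ → Prop := fun k i => M ≤ (i : ℝ) ∧ (i : ℝ) + M ≤ dist x (k • x) ∧
        ¬ Gate2 T x ((q (rad x i (k • x)))⁻¹ • x) ((q (rad x i (k • x)))⁻¹ • k • x) with hgood
  have hdn : ∀ k ∈ S, dist x (k • x) ≤ n := fun k hk => mem_near.1 (hS hk)
  have hex : ∀ (k : G) (i : ℕ), k ∈ S → good k i → ∃ H : Finset G, J ≤ H.card ∧
      ∀ h ∈ H, dist x (h • x) ≤ i + (2 * D + 3) ∧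
        dist x ((h⁻¹ * k) • x) ≤ (n - i : ℝ) + (2 * D + 3) := by
    intro k i hk hg
    obtain ⟨g1, g2, g3⟩ := hg
    have hi0 : (0 : ℝ) ≤ i := Nat.cast_nonneg _
    have hid : (i : ℝ) ≤ dist x (k • x) := by
      have : 0 ≤ M := by positivity
      linarith
    set g : G := q (rad x i (k • x)) with hgdef
    have hr1 : dist x (rad x i (k • x)) = i := dist_rad hi0 hid
    have hr2 : dist (rad x i (k • x)) (k • x) = dist x (k • x) - i := dist_rad_right hi0 hid
    have hrg : dist (rad x i (k • x)) (g • x) ≤ D := hq _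
    have t1 := dist_triangle x (g • x) (rad x i (k • x))
    have t2 := dist_triangle x (rad x i (k • x)) (g • x)
    have t3 := dist_triangle (rad x i (k • x)) (g • x) (k • x)
    have t4 := dist_triangle (g • x) (rad x i (k • x)) (k • x)
    rw [dist_comm (g • x) (rad x i (k • x))] at t1 t4
    obtain ⟨H, hH1, hH2⟩ := points hD hq hT (g := g) (k := k)
      (by rw [dist_inv_smul]; linarith) (by rw [sum_dist_inv]; linarith) g3 hJ
    refine ⟨H, hH1, fun h hh => ?_⟩
    obtain ⟨a1, a2⟩ := hH2 h hh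
    have hd := hdn k hk
    refine ⟨by linarith, ?_⟩
    rw [mul_smul, sum_dist_inv]
    linarith
  choose! H hH1 hH2 using hex
  have key : ∀ i ∈ Finset.range (n + 1), ∑ k ∈ S with good k i, ((H k i).card : ℝ) ≤
      ((near G x x (i + (2 * D + 3))).card : ℝ) *
        (near G x x ((n - i : ℝ) + (2 * D + 3))).card := by
    intro i _
    have h1 : ∑ k ∈ S with good k i, (H k i).card =
        ((S.filter fun k => good k i).sigma fun k => H k i).card := (Finset.card_sigma _ _).symm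
    have h2 : ((S.filter fun k => good k i).sigma fun k => H k i).card ≤
        (near G x x (i + (2 * D + 3)) ×ˢ near G x x ((n - i : ℝ) + (2 * D + 3))).card := by
      refine Finset.card_le_card_of_injOn (fun p => (p.2, p.2⁻¹ * p.1)) ?_ ?_
      · rintro ⟨k, h⟩ hp
        rw [Finset.mem_coe, Finset.mem_sigma, Finset.mem_filter] at hp
        obtain ⟨⟨hk, hg⟩, hh⟩ := hp
        obtain ⟨a1, a2⟩ := hH2 k i hk hg h hh
        rw [Finset.mem_coe, Finset.mem_product]
        exact ⟨mem_near.2 a1, mem_near.2 a2⟩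
      · rintro ⟨k, h⟩ _ ⟨k', h'⟩ _ heq
        simp only [Prod.mk.injEq] at heq
        obtain ⟨e1, e2⟩ := heq
        subst e1
        have := mul_left_cancel e2
        subst this
        rfl
    rw [Finset.card_product] at h2
    rw [← h1] at h2
    exact_mod_cast h2
  calc (J : ℝ) * ∑ k ∈ S, (dist x (k • x) - c)
      = ∑ k ∈ S, (J : ℝ) * (dist x (k • x) - c) := Finset.mul_sum _ _ _
    _ ≤ ∑ k ∈ S, ∑ i ∈ Finset.range (n + 1) with good k i, ((H k i).card : ℝ) := by
        refine Finset.sum_le_sum fun k hk => ?_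
        have h1 := good_positions hcoc hno hD hq hT hL1 hL2 (hdn k hk)
        have h2 : (J : ℝ) * (dist x (k • x) - c) ≤
            J * (((Finset.range (n + 1)).filter fun i : ℕ => good k i).card : ℝ) :=
          mul_le_mul_of_nonneg_left h1 (Nat.cast_nonneg _)
        refine h2.trans ?_
        rw [mul_comm, ← nsmul_eq_mul, ← Finset.sum_const]
        refine Finset.sum_le_sum fun i hi => ?_
        have := hH1 k i hk (Finset.mem_filter.1 hi).2
        exact_mod_cast this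
    _ = ∑ i ∈ Finset.range (n + 1), ∑ k ∈ S with good k i, ((H k i).card : ℝ) := by
        simp only [Finset.sum_filter]
        exact Finset.sum_comm
    _ ≤ _ := Finset.sum_le_sum key

end Pool.Agent.H25.PE
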