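import Pool.Agent.H25.Bet.Gate
import Pool.Agent.H25.Lp.Label

/-!
# Where there is no gate there is a third direction

JOB PE-1 (`wide_ray`). As in the proof of `exists_sector` (Lp/Sector.lean): `¬ Gate2` gives `u, v` with
`T ≤ dist x u`, `T ≤ dist x v`, `dist (rad x T u) (rad x T a) ≤ 2`, `dist (rad x T v) (rad x T b) ≤ 2` and
`T ≤ dist x (pt u v s)` for all `s ∈ [0,1]`. Let `z = pt u v s₀` be a nearest point of `[u,v]` to `x`
(argmin as in Lp/Sector.lean); then `dist x z ≤ dist x (pt z v s)`, `dist x z ≤ dist x (pt z u s)`.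
`label_bound` (Lp/Label.lean) with `a = 0` (`pt_zero`, `min 1 (0 * _ / _) = 0`) gives
`dist (rad x t z) (rad x T v) ≤ T + 1`, so `dist (rad x t z) b ≤ (T+1) + 2 + (dist x b - T)`
(`dist_rad_right`). The same with `u`, `a`.
-/

open Set

namespace Pool.Agent.H25.PE

open Pool.Agent.H29 Pool.Agent.H25.Bet Pool.Agent.H25.Lp

variable {X : Type*} [MetricSpace X] [IsCAT0 X]

/-- `Gate` with tolerance 2 -/
def Gate2 (T : ℝ) (x a b : X) : Prop :=
  ∀ u v : X, T ≤ dist x u → T ≤ dist x v → dist (rad x T u) (rad x T a) ≤ 2 →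
    dist (rad x T v) (rad x T b) ≤ 2 → ∃ s ∈ Icc (0 : ℝ) 1, dist x (pt u v s) < T

lemma wide_aux {x z v b : X} {t T : ℝ} (ht : 1 ≤ t) (hT : t ^ 2 ≤ T) (hz : T ≤ dist x z)
    (hnear : ∀ s ∈ Icc (0 : ℝ) 1, dist x z ≤ dist x (pt z v s)) (hb : T ≤ dist x b)
    (hvb : dist (rad x T v) (rad x T b) ≤ 2) : dist (rad x t z) b ≤ dist x b + 3 := by
  have hT0 : 0 ≤ T := le_trans (sq_nonneg t) hT
  have h1 := label_bound ht hT hz hnear (a := 0) zero_mem_I
  rw [pt_zero, zero_mul, zero_div, min_eq_right zero_le_one, zero_div, mul_zero, sub_zero] at h1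
  have h2 := dist_rad_right hT0 hb
  have h3 := dist_triangle (rad x t z) (rad x T v) b
  have h4 := dist_triangle (rad x T v) (rad x T b) b
  linarith

theorem wide_ray {T : ℝ} (hT : 1 ≤ T) {x a b : X} (ha : T ≤ dist x a) (hb : T ≤ dist x b)
    (hg : ¬ Gate2 T x a b) : ∃ z : X, T ≤ dist x z ∧ ∀ t : ℝ, 1 ≤ t → t ^ 2 ≤ T →
      dist (rad x t z) a ≤ dist x a + 3 ∧ dist (rad x t z) b ≤ dist x b + 3 := by
  unfold Gate2 at hg
  push Not at hg
  obtain ⟨u, v, hu, hv, hua, hvb, hfar⟩ := hg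
  have hlip : LipschitzOnWith (nndist u v) (fun s => dist x (pt u v s))
      (Icc (0 : ℝ) 1) := by
    apply LipschitzOnWith.of_dist_le_mul
    intro s hs t ht
    refine (dist_dist_dist_le_right _ _ _).trans ?_
    rw [dist_pt_pt u v hs ht, Real.dist_eq, coe_nndist, mul_comm]
  obtain ⟨s₀, hs₀, hmin⟩ := isCompact_Icc.exists_isMinOn ⟨0, zero_mem_I⟩ hlip.continuousOn
  have hmin' : ∀ s ∈ Icc (0 : ℝ) 1, dist x (pt u v s₀) ≤ dist x (pt u v s) := fun s hs => hmin hs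
  have hnv : ∀ s ∈ Icc (0 : ℝ) 1, dist x (pt u v s₀) ≤ dist x (pt (pt u v s₀) v s) := by
    intro s hs
    have e := pt_pt_pt u v hs₀ one_mem_I hs
    rw [pt_one] at e
    rw [e]
    apply hmin'
    have h1 := hs₀.1; have h2 := hs₀.2; have h3 := hs.1; have h4 := hs.2
    constructor <;> nlinarith
  have hnu : ∀ s ∈ Icc (0 : ℝ) 1, dist x (pt u v s₀) ≤ dist x (pt (pt u v s₀) u s) := by
    intro s hs
    have e := pt_pt_pt u v hs₀ zero_mem_I hs
    rw [pt_zero] at e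
    rw [e]
    apply hmin'
    have h1 := hs₀.1; have h2 := hs₀.2; have h3 := hs.1; have h4 := hs.2
    constructor <;> nlinarith
  have hz := hfar s₀ hs₀
  exact ⟨pt u v s₀, hz, fun t ht htT =>
    ⟨wide_aux ht htT hz hnu ha hua, wide_aux ht htT hz hnv hb hvb⟩⟩

end Pool.Agent.H25.PE
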